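import Pool.Agent.KS6_11.CubOne.Dim
import Pool.Graph.R_seed8.Results.MP_56a3d2_al.Cubulated

/-!
# The Cayley graph of the mapping torus for seven explicit generators
-/

set_option autoImplicit false

namespace Pool.Agent.KS6_11.CubOne

open Pool.Agent.Results.MP_56a3d2_al.Cubulated
open Pool.Agent.V1127.FbC Pool.Agent.W387 Pool.Agent.W387.SqSys

/-- the letter `a` of the mapping torus -/
def tA (Φ : MulAut (FreeGroup (Fin 3))) : MappingTorus Φ := SemidirectProduct.inl (FreeGroup.of 0)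
/-- the letter `b` of the mapping torus -/
def tB (Φ : MulAut (FreeGroup (Fin 3))) : MappingTorus Φ := SemidirectProduct.inl (FreeGroup.of 1)
/-- the letter `c` of the mapping torus -/
def tC (Φ : MulAut (FreeGroup (Fin 3))) : MappingTorus Φ := SemidirectProduct.inl (FreeGroup.of 2)
/-- the stable letter `t` of the mapping torus -/
def tT (Φ : MulAut (FreeGroup (Fin 3))) : MappingTorus Φ :=
  SemidirectProduct.inr (Multiplicative.ofAdd 1)

/-- The seven generators `t`, `a⁻¹ t`, `b`, `c b⁻¹`, `b c`, `b² c b`, `t⁻¹ b² c b a⁻¹ t`. -/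
def letters (Φ : MulAut (FreeGroup (Fin 3))) : Fin 7 → MappingTorus Φ :=
  ![tT Φ, (tA Φ)⁻¹ * tT Φ, tB Φ, tC Φ * (tB Φ)⁻¹, tB Φ * tC Φ, tB Φ * tB Φ * tC Φ * tB Φ,
    (tT Φ)⁻¹ * tB Φ * tB Φ * tC Φ * tB Φ * (tA Φ)⁻¹ * tT Φ]

/-- The Cayley graph of the mapping torus for these generators. -/
def cayley (Φ : MulAut (FreeGroup (Fin 3))) : SimpleGraph (MappingTorus Φ) where
  Adj g h := g ≠ h ∧ ∃ i, h = g * letters Φ i ∨ g = h * letters Φ i
  symm := ⟨fun _ _ h => ⟨h.1.symm, h.2.imp fun _ h => h.symm⟩⟩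
  loopless := ⟨fun _ h => h.1 rfl⟩

/-- the positive darts -/
def pos : Fin 7 → Dt := ![Dt.gt, Dt.gs, Dt.gb, Dt.e0, Dt.e1, Dt.e2, Dt.e3]

theorem pos_cases : ∀ x : Dt, (∃ i, x = pos i) ∨ ∃ i, x = Dt.inv (pos i) := by
  decide

theorem hom_gn {K : Type} [Group K] (s t b c : K) (h1 : s * t = t * s) (h2 : s * b = b * t)
    (h3 : t * c = b * c * b * s) (x : Dt) :
    HH.hom s t b c h1 h2 h3 (Dt.sys.gn x) = Dt.ext s t b c x :=
  lift_gn (S := Dt.sys) (Dt.ext s t b c) _ _ x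

theorem EE_gn (Φ : MulAut (FreeGroup (Fin 3))) (ha : Φ (FreeGroup.of 0) = FreeGroup.of 0)
    (hb : Φ (FreeGroup.of 1) = FreeGroup.of 0 * FreeGroup.of 1)
    (hc : Φ (FreeGroup.of 2) = FreeGroup.of 1 * FreeGroup.of 2 * FreeGroup.of 1) (i : Fin 7) :
    EE Φ ha hb hc (Dt.sys.gn (pos i)) = letters Φ i := by
  have h : ∀ x : Dt, EE Φ ha hb hc (Dt.sys.gn x) =
      Dt.ext ((tA Φ)⁻¹ * tT Φ) (tT Φ) (tB Φ) (tC Φ * (tB Φ)⁻¹) x := fun x =>
    hom_gn _ _ _ _ _ _ _ x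
  rw [h]
  fin_cases i
  · rfl
  · rfl
  · rfl
  · rfl
  · show tB Φ * (tC Φ * (tB Φ)⁻¹) * tB Φ = tB Φ * tC Φ
    group
  · show tB Φ * (tB Φ * (tC Φ * (tB Φ)⁻¹) * tB Φ) * tB Φ = tB Φ * tB Φ * tC Φ * tB Φ
    group
  · show (tT Φ)⁻¹ * (tB Φ * (tB Φ * (tC Φ * (tB Φ)⁻¹) * tB Φ) * tB Φ) * ((tA Φ)⁻¹ * tT Φ) =
      (tT Φ)⁻¹ * tB Φ * tB Φ * tC Φ * tB Φ * (tA Φ)⁻¹ * tT Φ
    group

theorem EE_gn_inv (Φ : MulAut (FreeGroup (Fin 3))) (ha : Φ (FreeGroup.of 0) = FreeGroup.of 0)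
    (hb : Φ (FreeGroup.of 1) = FreeGroup.of 0 * FreeGroup.of 1)
    (hc : Φ (FreeGroup.of 2) = FreeGroup.of 1 * FreeGroup.of 2 * FreeGroup.of 1) (i : Fin 7) :
    EE Φ ha hb hc (Dt.sys.gn (Dt.inv (pos i))) = (letters Φ i)⁻¹ := by
  have h : Dt.sys.gn (Dt.inv (pos i)) = (Dt.sys.gn (pos i))⁻¹ := gn_inv (S := Dt.sys) (pos i)
  rw [h, map_inv, EE_gn]

/-- The Cayley graph of the square system is the Cayley graph of the mapping torus. -/
noncomputable def toCay (Φ : MulAut (FreeGroup (Fin 3)))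
    (ha : Φ (FreeGroup.of 0) = FreeGroup.of 0)
    (hb : Φ (FreeGroup.of 1) = FreeGroup.of 0 * FreeGroup.of 1)
    (hc : Φ (FreeGroup.of 2) = FreeGroup.of 1 * FreeGroup.of 2 * FreeGroup.of 1) :
    Dt.sys.Cay ≃g cayley Φ where
  toFun v := (EE Φ ha hb hc v.g)⁻¹
  invFun g := ⟨FF Φ ha hb hc g⁻¹⟩
  left_inv v := by
    apply Vx.ext
    show FF Φ ha hb hc ((EE Φ ha hb hc v.g)⁻¹)⁻¹ = v.g
    rw [_root_.inv_inv]
    exact FF_EE Φ ha hb hc v.g
  right_inv g := by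
    show (EE Φ ha hb hc (FF Φ ha hb hc g⁻¹))⁻¹ = g
    have h : EE Φ ha hb hc (FF Φ ha hb hc g⁻¹) = g⁻¹ := EE_FF Φ ha hb hc g⁻¹
    rw [h, _root_.inv_inv]
  map_rel_iff' := by
    intro v w
    have hinj : ∀ x y : HH, EE Φ ha hb hc x = EE Φ ha hb hc y → x = y := by
      intro x y h
      have h2 := congrArg (FF Φ ha hb hc) h
      rwa [FF_EE, FF_EE] at h2
    show ((EE Φ ha hb hc v.g)⁻¹ ≠ (EE Φ ha hb hc w.g)⁻¹ ∧ ∃ i, (EE Φ ha hb hc w.g)⁻¹ =
      (EE Φ ha hb hc v.g)⁻¹ * letters Φ i ∨ (EE Φ ha hb hc v.g)⁻¹ =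
      (EE Φ ha hb hc w.g)⁻¹ * letters Φ i) ↔ ∃ x, w.g = Dt.sys.gn x * v.g
    constructor
    · rintro ⟨_, i, h | h⟩
      · refine ⟨Dt.inv (pos i), hinj _ _ ?_⟩
        rw [map_mul, EE_gn_inv]
        have h2 := congrArg (fun x => x⁻¹) h
        simpa using h2
      · refine ⟨pos i, hinj _ _ ?_⟩
        rw [map_mul, EE_gn]
        have h2 := congrArg (fun x => x⁻¹) h
        simp only [_root_.inv_inv, mul_inv_rev] at h2
        rw [h2]
        group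
    · rintro ⟨x, hx⟩
      refine ⟨?_, ?_⟩
      · intro h
        have h2 : v.g = w.g := hinj _ _ (inv_injective h)
        have h3 : Dt.sys.Cay.Adj v w := ⟨x, hx⟩
        exact h3.ne (Vx.ext h2)
      · rcases pos_cases x with ⟨i, rfl⟩ | ⟨i, rfl⟩
        · refine ⟨i, Or.inr ?_⟩
          rw [hx, map_mul, EE_gn]
          group
        · refine ⟨i, Or.inl ?_⟩
          rw [hx, map_mul, EE_gn_inv]
          group

/-- Median graphs are preserved by isomorphisms. -/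
theorem isMedian_iso {V W : Type} {Γ : SimpleGraph V} {Δ : SimpleGraph W} (e : Γ ≃g Δ)
    (h : IsMedianGraph Γ) : IsMedianGraph Δ := by
  have hd : ∀ {V W : Type} {Γ : SimpleGraph V} {Δ : SimpleGraph W} (e : Γ ≃g Δ)
      (_ : Γ.Connected) (x y : V), Δ.dist (e x) (e y) ≤ Γ.dist x y := by
    intro V W Γ Δ e hc x y
    obtain ⟨p, hp⟩ := hc.exists_walk_length_eq_dist x y
    rw [← hp, ← SimpleGraph.Walk.length_map e.toHom p]
    exact SimpleGraph.dist_le _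
  have hcΔ : Δ.Connected := e.connected_iff.1 h.1
  have hdist : ∀ x y : W, Δ.dist x y = Γ.dist (e.symm x) (e.symm y) := by
    intro x y
    apply le_antisymm
    · have := hd e h.1 (e.symm x) (e.symm y)
      simpa using this
    · exact hd e.symm hcΔ x y
  refine ⟨hcΔ, fun x y z => ?_⟩
  obtain ⟨m, hm, hm2⟩ := h.2 (e.symm x) (e.symm y) (e.symm z)
  refine ⟨e m, ?_, ?_⟩
  · simp only [hdist]
    simpa using hm
  · intro m' hm'
    simp only [hdist] at hm'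
    have := hm2 (e.symm m') hm'
    rw [← this]
    simp

end Pool.Agent.KS6_11.CubOne
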