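import Pool.Graph.R_seed8.V1127.FbCHom

/-!
# Squares and cubes in the Cayley graph of a square system
-/

set_option autoImplicit false

namespace Pool.Agent.KS6_11.CubOne

open Pool.Agent.W387 Pool.Agent.W387.SqSys Pool.Agent.V1127.FbC

/-- Two directions at a vertex which lie in a common square of the Cayley graph are related by a
square of the system. -/
theorem sq_of_square {A : Type} {S : SqSys A} {a b p q : A} (hab : a ≠ b)
    (h : S.gn p * S.gn a = S.gn q * S.gn b) (h1 : S.gn p * S.gn a ≠ 1) :
    S.sq (S.inv a) (S.inv b) = some (S.inv p, S.inv q) := by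
  have two : ∀ x y : A, S.gn x * S.gn y ≠ 1 → S.Red [x, y] := by
    intro x y hxy
    apply red_of_len
    have e : evL (S := S) [x, y] = S.gn x * S.gn y := by simp
    rw [e]
    rcases len_gn_mul x (S.gn y) with h2 | h2
    · rw [h2, len_gn]
      rfl
    · rw [len_gn] at h2
      exact absurd (len_eq_zero (by omega)) hxy
  have r1 := two p a h1
  have r2 := two q b (by rw [← h]; exact h1)
  have e : S.E [p, a] [q, b] := E_of_evL_eq r1 r2 (by simpa using h)
  rcases key _ _ _ _ _ rfl e with ⟨_, h2⟩ | ⟨r, x, y, h2, h3, h4⟩
  · exact absurd (E_single h2) hab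
  · have l := E.length h3
    have hr : r = [] := List.eq_nil_of_length_eq_zero (by simpa using l)
    subst hr
    have e1 := E_single h3
    have e2 := E_single h4
    rw [← e1, ← e2] at h2
    exact backs h2

/-- Different darts are different elements of the group. -/
theorem gn_inj {A : Type} {S : SqSys A} : Function.Injective S.gn := by
  intro a b h
  exact E_single (E_of_evL_eq (red_single a) (red_single b) (by simpa using h))

/-- Two darts span a square. -/
def spn (x y : Dt) : Bool := (Dt.sq x y).isSome

/-- at most three darts span pairwise squares -/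
theorem no_four : ∀ a b : Dt, spn a b = true → ∀ c : Dt, (spn a c && spn b c) = true →
    ∀ d : Dt, (spn a d && (spn b d && spn c d)) = false := by
  decide +kernel

/-- A combinatorial `d`-cube in a graph. -/
def IsCube {V : Type} (Γ : SimpleGraph V) (d : ℕ) (c : (Fin d → Bool) → V) : Prop :=
  Function.Injective c ∧ ∀ (x : Fin d → Bool) (i : Fin d),
    Γ.Adj (c x) (c (Function.update x i (!(x i))))

/-- The Cayley graph has no 4-cube. -/
theorem no_cube (c : (Fin 4 → Bool) → Dt.sys.Vx) : ¬ IsCube Dt.sys.Cay 4 c := by
  rintro ⟨hinj, hadj⟩
  set o : Fin 4 → Bool := fun _ => false with ho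
  have hnb : ∀ i : Fin 4, ∃ a : Dt, (c (Function.update o i true)).g = Dt.sys.gn a * (c o).g :=
    fun i => hadj o i
  choose a ha using hnb
  have key : ∀ i j : Fin 4, i ≠ j → spn (Dt.sys.inv (a i)) (Dt.sys.inv (a j)) = true := by
    intro i j hij
    set w := Function.update (Function.update o i true) j true with hw
    have hw' : w = Function.update (Function.update o j true) i true :=
      Function.update_comm (Ne.symm hij) _ _ _ |>.symm ▸ rfl
    have h1 : Dt.sys.Cay.Adj (c (Function.update o i true)) (c w) := by
      have := hadj (Function.update o i true) j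
      rw [Function.update_of_ne (Ne.symm hij)] at this
      exact this
    have h2 : Dt.sys.Cay.Adj (c (Function.update o j true)) (c w) := by
      have := hadj (Function.update o j true) i
      rw [Function.update_of_ne hij] at this
      rw [hw']
      exact this
    obtain ⟨p, hp⟩ := h1
    obtain ⟨q, hq⟩ := h2
    rw [ha i] at hp
    rw [ha j] at hq
    have hpq : Dt.sys.gn p * Dt.sys.gn (a i) = Dt.sys.gn q * Dt.sys.gn (a j) := by
      have h3 := hp.symm.trans hq
      rw [← mul_assoc, ← mul_assoc] at h3
      exact mul_right_cancel h3
    have hne : Dt.sys.gn p * Dt.sys.gn (a i) ≠ 1 := by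
      intro h3
      rw [← mul_assoc, h3, one_mul] at hp
      have h4 : w = o := hinj (Vx.ext hp)
      have h5 := congrFun h4 j
      rw [hw, Function.update_self] at h5
      exact absurd h5 (by decide)
    have hai : a i ≠ a j := by
      intro h3
      have h4 : c (Function.update o i true) = c (Function.update o j true) := by
        apply Vx.ext
        rw [ha i, ha j, h3]
      have h5 := congrFun (hinj h4) i
      rw [Function.update_self, Function.update_of_ne hij] at h5
      exact absurd h5 (by decide)
    have h6 := sq_of_square hai hpq hne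
    change (Dt.sys.sq (Dt.sys.inv (a i)) (Dt.sys.inv (a j))).isSome = true
    rw [h6]
    rfl
  have k01 := key 0 1 (by decide)
  have k02 := key 0 2 (by decide)
  have k03 := key 0 3 (by decide)
  have k12 := key 1 2 (by decide)
  have k13 := key 1 3 (by decide)
  have k23 := key 2 3 (by decide)
  have := no_four _ _ k01 _ (by rw [k02, k12]; rfl) (Dt.sys.inv (a 3))
  rw [k03, k13, k23] at this
  exact absurd this (by decide)

end Pool.Agent.KS6_11.CubOne
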